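import Pool.Agent.H57.AVX.Prx

/-!
# Closed gradients on one event, with more far data

`avg_genX`: as `avg_gen`, from the inputs `PrX`. `av1_evX`: one moved place.
-/

set_option autoImplicit false

namespace Pool.AVG57

open Finset Real MvPolynomial
open Pool.Agent.H49.Ent Pool.Agent.H32.Dense Pool.STK Pool.KA Pool.KSAT Pool.K2S Pool.PB Pool.S6C
open Pool.GEN Pool.CHT Pool.CHX Pool.ISO Pool.LA91 Pool.AVG71 Pool.AVG5 Pool.D2F2
open Pool.PB.Trl (rt rt_mem t_rt)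
open Pool.D2R (hgt)
open Pool.KVA (MI)
open Pool.KAF (rs Pr)
open Pool.BFL (Pb)

variable {m J : ℕ}

/-- **Closed gradients on one event**, general form. -/
theorem avg_genX (k K : ℕ) (cc ε : ℝ) (hcc : 0 < cc) (hε : 0 < ε) :
    ∃ (κ₂ κ π₀ ι ε₀ : ℝ) (k₁ j₀ X₀ : ℕ), 0 < κ₂ ∧ κ₂ ≤ 1 ∧ 0 < κ ∧ κ ≤ 1 ∧ 0 < π₀ ∧ 0 < ι ∧
      0 < ε₀ ∧
      ∀ {m J : ℕ} {F : Fam m J} {c : ℕ → Fin m} {mv : Fin k → ℕ} {i q w W X mm D : ℕ} {γ : ℕ → ℕ}
        {B : F.Ω → Prop} {G₀ : PtT F → ℕ → MvPolynomial (Option (Fin m)) ℝ}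
        {H : LnT F → ℕ → MvPolynomial (Option (Fin m)) ℝ} {gg : F.Ω → Fin k → ℝ}
        {ζ ζ' υ' φ' χ₁ χ₂ ρ₁ ρ₂ υ : Type} {z : F.Ω → ζ} {zw : F.Ω → ζ'} {Yc : F.Ω → υ'}
        {Yf : F.Ω → φ'} {Cj : F.Ω → χ₁} {Cx : F.Ω → χ₂} {Rj : F.Ω → ρ₁} {Rx : F.Ω → ρ₂} {V : F.Ω → υ}
        {M : F.Ω → ℤ} {p : F.Ω → ℝ} {Nf Nn Nx Nu Nv : Fin k → ℕ → ℝ} {Mf Mn : ℕ → ℝ}
        {U Fv e : ℝ}
        (_ : PrX F c mv i q w W X mm D K γ B G₀ H gg z zw Yc Yf Cj Cx Rj Rx V p Nf Nn Nx Nu Nv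
          Mf Mn U Fv e)
        {Ur Bq eV ψ : ℝ}, 0 ≤ Bq → 0 ≤ eV →
        (∀ q' : F.Ω → ℝ, IsLaw q' → (∀ ω, 0 < q' ω → 0 < p ω) →
          CH q' V (fun ω => ((adG F c mv i q w W X mm γ gg H z).T ω,
            (adG F c mv i q w W X mm γ gg H z).g K ω)) ≤ Fv + eV) →
        CH p V (fun ω => ((adG F c mv i q w W X mm γ gg H z).Y K ω,
          (rt F W ω, (adG F c mv i q w W X mm γ gg H z).g K ω))) ≤
          Fv + eV - k * X * Real.log 2 →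
        (∀ ω ω', 0 < p ω → 0 < p ω' → V ω = V ω' →
          (adG F c mv i q w W X mm γ gg H z).T ω = (adG F c mv i q w W X mm γ gg H z).T ω' →
          (adG F c mv i q w W X mm γ gg H z).g K ω =
            (adG F c mv i q w W X mm γ gg H z).g K ω' →
          |((adG F c mv i q w W X mm γ gg H z).Q ω - M ω) -
            ((adG F c mv i q w W X mm γ gg H z).Q ω' - M ω')| ≤ Bq) →
        (∀ j : ℕ, (j + 1) * ⌊κ * X⌋₊ ≤ X → ∀ E : Set F.Ω, π₀ ≤ Pr p E →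
          CH (rs p E) (fun ω => M ω / 2 ^ (X - (j + 1) * ⌊κ * X⌋₊))
            (fun ω => (M ω / 2 ^ (X - j * ⌊κ * X⌋₊), (V ω,
              ((adG F c mv i q w W X mm γ gg H z).T ω,
                (adG F c mv i q w W X mm γ gg H z).g K ω)))) ≤ Ur) →
        TimW F p W j₀ ε₀ ψ → Det p (slam F W) z → X₀ ≤ X → W + X ≤ J →
        ψ * J ≤ ι * X * Real.log 2 → (mm : ℝ) ≤ ι * X →
        6 * (4 * e + cE0 k K U + eV) ≤ ι * X →
        3 * (4 * e + cE0 k K U + eV) + k * mm * Real.log 2 ≤ ι * X * Real.log 2 →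
        Ur + cR k K Bq + (4 * (4 * e + cE0 k K U + eV) + k * mm * Real.log 2 + Real.log 2) / π₀ ≤
          (1 - cc) * ⌊κ * X⌋₊ * Real.log 2 →
        ∃ mu : LnT F → Fin k → Polynomial ℝ, (∀ s j, (mu s j).natDegree ≤ K) ∧
          (∀ s j (u : ℝ), |(mu s j).eval u| ≤
            (K + 1) * (2 ^ k₁ * (|u| + 1)) ^ K * (2 : ℝ) ^ (ι * X)) ∧
          Pb p (fun ω => ∃ j : Fin k, (2 : ℝ) ^ (-(κ₂ * X)) <
            |gg ω j - (mu (slam F W ω) j).eval (rt F W ω)|) ≤ ε := by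
  classical
  obtain ⟨κ₂, κ, π₀, ι, ε₀, k₁, j₀, X₀, a1, a2, a3, a4, a5, a6, Hm⟩ := ad_clo k K cc ε hcc hε
  obtain ⟨κ₃, hκ₃⟩ : ∃ κ₃ : ℝ, κ₃ = min κ₂ 1 / 2 := ⟨_, rfl⟩
  have hm0 : 0 < min κ₂ 1 := lt_min a1 one_pos
  have hκ0 : 0 < κ₃ := by
    rw [hκ₃]
    positivity
  have hκ1 : κ₃ ≤ 1 := by
    rw [hκ₃]
    have := min_le_right κ₂ (1 : ℝ)
    linarith
  refine ⟨κ₃, κ, π₀, ι, ε₀, k₁, j₀, max X₀ ⌈1 / κ₃⌉₊, hκ0, hκ1, a2, a3, a4, a5, a6, ?_⟩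
  intro m J F c mv i q w W X mm D γ B G₀ H gg ζ ζ' υ' φ' χ₁ χ₂ ρ₁ ρ₂ υ z zw Yc Yf Cj Cx Rj Rx V M p Nf
    Nn Nx Nu Nv Mf Mn U Fv e P Ur Bq eV ψ hB0 heV hvb hvy hqv hrow hT hz hX hJ hψ hmm n1 n2 n3
  have hp := P.law
  have h0 := hp.nonneg
  have hW := P.WJ
  have hyp := P.hyp hB0 heV hvb hvy hqv hrow
  have he : 0 ≤ e := (CH_nonneg h0 _ _).trans P.chj
  have hU := P.grd.U0
  have hcE : 0 ≤ cE0 k K U := by
    have hcJ := cJ_nonneg K
    have hcA := cA_nonneg K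
    have hl5 : 0 ≤ Real.log 5 := Real.log_nonneg (by norm_num)
    have hlU : 0 ≤ Real.log (2 * (U + 1) + 1) := Real.log_nonneg (by linarith)
    have hlN : 0 ≤ Real.log (2 * (U + 4 * k + 2 * ((K + 1) * (k + 1)) + 1) + 1) := by
      refine Real.log_nonneg ?_
      have : (0 : ℝ) ≤ 4 * k + 2 * ((K + 1) * (k + 1)) := by positivity
      linarith
    unfold cE0
    positivity
  have hX0 : X₀ ≤ X := (le_max_left _ _).trans hX
  have hXκ : 1 ≤ κ₃ * X := by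
    have h1 : (⌈1 / κ₃⌉₊ : ℝ) ≤ X := by exact_mod_cast (le_max_right _ _).trans hX
    have h2 : 1 / κ₃ ≤ X := (Nat.le_ceil _).trans h1
    rwa [div_le_iff₀ hκ0, mul_comm] at h2
  have hLs := adG_L (c := c) (mv := mv) (i := i) (q := q) (w := w) (X := X) (mm := mm)
    (γ := γ) (gg := gg) (H := H) p hz K
  have hth : (adG F c mv i q w W X mm γ gg H z).th = F.tw W := by
    funext ω
    exact (tw_rt F hW ω).symm
  have hbm : ∀ ω, 0 < p ω → ∀ j, |(adG F c mv i q w W X mm γ gg H z).bb ω j| ≤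
      (2 : ℝ) ^ (ι * X) := by
    intro ω hω j
    refine (hyp.bm ω hω j).trans ?_
    show (2 : ℝ) ^ mm ≤ _
    rw [← Real.rpow_natCast 2 mm]
    exact Real.rpow_le_rpow_of_exponent_le one_le_two hmm
  have h1f : (1 - ι) * X * Real.log 2 ≤
      CH p (fun ω => ⌊(2 : ℝ) ^ X * (adG F c mv i q w W X mm γ gg H z).th ω⌋)
        ((adG F c mv i q w W X mm γ gg H z).L K) := by
    have h1 := hT.f X hJ
    have h2 : CH p (fun ω => ⌊(2 : ℝ) ^ X * F.tw W ω⌋) (slam F W) ≤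
        CH p (fun ω => ⌊(2 : ℝ) ^ X * F.tw W ω⌋) ((adG F c mv i q w W X mm γ gg H z).L K) :=
      CH_mono_cond h0 hLs
    rw [hth]
    have h3 : (1 - ι) * X * Real.log 2 = X * Real.log 2 - ι * X * Real.log 2 := by ring
    linarith
  have h1a : j₀ * Real.log 2 - ε₀ ≤
      CH p (fun ω => ⌊(2 : ℝ) ^ j₀ * (adG F c mv i q w W X mm γ gg H z).th ω⌋)
        ((adG F c mv i q w W X mm γ gg H z).L K) := by
    have h2 : CH p (fun ω => ⌊(2 : ℝ) ^ j₀ * F.tw W ω⌋) (slam F W) ≤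
        CH p (fun ω => ⌊(2 : ℝ) ^ j₀ * F.tw W ω⌋) ((adG F c mv i q w W X mm γ gg H z).L K) :=
      CH_mono_cond h0 hLs
    rw [hth]
    exact hT.a.trans h2
  obtain ⟨mu, m1, m2, m3⟩ := Hm p (adG F c mv i q w W X mm γ gg H z) Rj Rx _ _ _ _ V M _ _ Bq Ur
    hX0 (by positivity) hyp hbm h1f h1a n1 n2 n3
  -- the polynomials as functions of the line and the window
  obtain ⟨f, hf⟩ : ∃ f : LnT F → Fin k → Polynomial ℝ, (∀ s j, (f s j).natDegree ≤ K) ∧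
      (∀ s j (u : ℝ), |(f s j).eval u| ≤ (K + 1) * (2 ^ k₁ * (|u| + 1)) ^ K *
        (2 : ℝ) ^ (ι * X)) ∧
      ∀ ω, 0 < p ω → f (slam F W ω) = mu ((adG F c mv i q w W X mm γ gg H z).L K ω) := by
    refine ⟨fun s => if hs : ∃ ω, 0 < p ω ∧ slam F W ω = s then
      mu ((adG F c mv i q w W X mm γ gg H z).L K hs.choose) else fun _ => 0,
      fun s j => ?_, fun s j u => ?_, fun ω hω => ?_⟩
    · dsimp only
      split_ifs with hs
      · exact m1 _ j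
      · simp
    · dsimp only
      split_ifs with hs
      · exact m2 _ j u
      · simp only [Polynomial.eval_zero, abs_zero]
        positivity
    · have hs : ∃ ω', 0 < p ω' ∧ slam F W ω' = slam F W ω := ⟨ω, hω, rfl⟩
      simp only [dif_pos hs]
      rw [hLs _ ω hs.choose_spec.1 hω hs.choose_spec.2]
  refine ⟨f, hf.1, hf.2.1, le_trans ?_ m3⟩
  unfold Pb
  refine Finset.sum_le_sum fun ω _ => ?_
  by_cases h6 : ∃ j : Fin k, (2 : ℝ) ^ (-(κ₃ * X)) < |gg ω j -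
      (f (slam F W ω) j).eval (rt F W ω)|
  · rw [if_pos h6]
    by_cases hω : 0 < p ω
    · rw [if_pos ?_]
      obtain ⟨j, hj⟩ := h6
      refine ⟨j, ?_⟩
      rw [hf.2.2 ω hω] at hj
      have e2 : (adG F c mv i q w W X mm γ gg H z).th ω = rt F W ω := rfl
      have e3 : (adG F c mv i q w W X mm γ gg H z).X = X := rfl
      have e4 := adG_bbr (c := c) (mv := mv) (i := i) (q := q) (w := w) (W := W) (X := X)
        (mm := mm) (γ := γ) (gg := gg) (H := H) (z := z) ω j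
      have e5 : (1 : ℝ) / 2 ^ X ≤ 2 ^ (-(2 * κ₃ * X)) := by
        rw [one_div, ← Real.rpow_natCast, ← Real.rpow_neg two_pos.le]
        refine Real.rpow_le_rpow_of_exponent_le one_le_two ?_
        have h1 : 2 * κ₃ ≤ 1 := by
          rw [hκ₃]
          have := min_le_right κ₂ (1 : ℝ)
          linarith
        have h2 : 2 * κ₃ * X ≤ 1 * X := mul_le_mul_of_nonneg_right h1 (Nat.cast_nonneg X)
        linarith
      have e6 : (2 : ℝ) ^ (-(κ₂ * X)) ≤ 2 ^ (-(2 * κ₃ * X)) := by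
        refine Real.rpow_le_rpow_of_exponent_le one_le_two ?_
        have h1 : 2 * κ₃ ≤ κ₂ := by
          rw [hκ₃]
          have := min_le_left κ₂ (1 : ℝ)
          linarith
        have h2 : 2 * κ₃ * X ≤ κ₂ * X := mul_le_mul_of_nonneg_right h1 (Nat.cast_nonneg X)
        linarith
      have e7 : 2 * (2 : ℝ) ^ (-(2 * κ₃ * X)) ≤ 2 ^ (-(κ₃ * X)) := by
        have h1 : 2 * (2 : ℝ) ^ (-(2 * κ₃ * X)) = 2 ^ (1 + -(2 * κ₃ * X)) := by
          rw [Real.rpow_add two_pos, Real.rpow_one]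
        rw [h1]
        refine Real.rpow_le_rpow_of_exponent_le one_le_two ?_
        linarith
      have e8 := abs_sub_le (gg ω j)
        ((adG F c mv i q w W X mm γ gg H z).bb ω j)
        ((mu ((adG F c mv i q w W X mm γ gg H z).L K ω) j).eval (rt F W ω))
      rw [e2, e3]
      linarith
    · have : p ω = 0 := le_antisymm (not_lt.1 hω) (h0 ω)
      rw [this]
      split_ifs <;> exact le_rfl
  · rw [if_neg h6]
    split_ifs
    · exact h0 ω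
    · exact le_rfl

/-- **Closed gradient in the direction of one moved place**, on one event. -/
theorem av1_evX (K : ℕ) (cc ε : ℝ) (hcc : 0 < cc) (hε : 0 < ε) :
    ∃ (κ₂ κ π₀ ι ε₀ : ℝ) (k₁ j₀ X₀ : ℕ), 0 < κ₂ ∧ κ₂ ≤ 1 ∧ 0 < κ ∧ κ ≤ 1 ∧ 0 < π₀ ∧ 0 < ι ∧
      0 < ε₀ ∧
      ∀ {m J : ℕ} {F : Fam m J} {c : ℕ → Fin m} {v i q w W X mm D : ℕ} {γ : ℕ → ℕ}
        {B : F.Ω → Prop} {G₀ : PtT F → ℕ → MvPolynomial (Option (Fin m)) ℝ}
        {H : LnT F → ℕ → MvPolynomial (Option (Fin m)) ℝ} {gg : F.Ω → Fin 1 → ℝ}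
        {ζ ζ' υ' φ' χ₁ χ₂ ρ₁ ρ₂ : Type} {z : F.Ω → ζ} {zw : F.Ω → ζ'} {Yc : F.Ω → υ'}
        {Yf : F.Ω → φ'} {Cj : F.Ω → χ₁} {Cx : F.Ω → χ₂} {Rj : F.Ω → ρ₁} {Rx : F.Ω → ρ₂}
        {p : F.Ω → ℝ} {Nf Nn Nx Nu Nv : Fin 1 → ℕ → ℝ} {Mf Mn : ℕ → ℝ} {U Nb e : ℝ}
        (_ : PrX F c (fun _ : Fin 1 => v) i q w W X mm D K γ B G₀ H gg z zw Yc Yf Cj Cx Rj Rx
          (Vh F c v w H Nb) p Nf Nn Nx Nu Nv Mf Mn U ((Nb - Nv 0 0 * J) * Real.log 2) e)
        {Ur ψ : ℝ}, ((γ v + q + X : ℕ) : ℝ) ≤ Nb → Nb ≤ (γ v + q + (X + mm) : ℕ) →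
        Nv 0 0 * J + X ≤ Nb →
        (∀ a : ℕ, a + ⌊κ * X⌋₊ ≤ X → ∀ E : Set F.Ω, π₀ ≤ Pr p E →
          CH (rs p E) (Mh F c i w H (γ i + q + (a + ⌊κ * X⌋₊)))
            (fun ω => (Mh F c i w H (γ i + q + a) ω, (Vh F c v w H Nb ω,
              (F.T ω, z ω)))) ≤ Ur) →
        TimW F p W j₀ ε₀ ψ → Det p (slam F W) z → X₀ ≤ X → W + X ≤ J →
        ψ * J ≤ ι * X * Real.log 2 → (mm : ℝ) ≤ ι * X →
        6 * (4 * e + cE0 1 K U + cV K) ≤ ι * X →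
        3 * (4 * e + cE0 1 K U + cV K) + mm * Real.log 2 ≤ ι * X * Real.log 2 →
        Ur + cR 1 K (U + 2) + (4 * (4 * e + cE0 1 K U + cV K) + mm * Real.log 2 +
          Real.log 2) / π₀ ≤ (1 - cc) * ⌊κ * X⌋₊ * Real.log 2 →
        ∃ mu : LnT F → Polynomial ℝ, (∀ s, (mu s).natDegree ≤ K) ∧
          (∀ s (u : ℝ), |(mu s).eval u| ≤
            (K + 1) * (2 ^ k₁ * (|u| + 1)) ^ K * (2 : ℝ) ^ (ι * X)) ∧
          Pb p (fun ω => (2 : ℝ) ^ (-(κ₂ * X)) <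
            |gg ω 0 - (mu (slam F W ω)).eval (rt F W ω)|) ≤ ε := by
  obtain ⟨κ₂, κ, π₀, ι, ε₀, k₁, j₀, X₀, a1, a2, a3, a4, a5, a6, a7, Hm⟩ :=
    avg_genX 1 K cc ε hcc hε
  refine ⟨κ₂, κ, π₀, ι, ε₀, k₁, j₀, X₀, a1, a2, a3, a4, a5, a6, a7, ?_⟩
  intro m J F c v i q w W X mm D γ B G₀ H gg ζ ζ' υ' φ' χ₁ χ₂ ρ₁ ρ₂ z zw Yc Yf Cj Cx Rj Rx p Nf Nn Nx Nu
    Nv Mf Mn U Nb e P Ur ψ hN1 hN2 hNX hrow hT hz hX hJ hψ hmm n1 n2 n3
  have hp := P.law
  have h0 := hp.nonneg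
  have hwW := P.wW
  have hW := P.WJ
  have hU := P.grd.U0
  have hl2 : 0 < Real.log 2 := Real.log_pos one_lt_two
  have hF : (X : ℝ) * Real.log 2 ≤ (Nb - Nv 0 0 * J) * Real.log 2 :=
    mul_le_mul_of_nonneg_right (by linarith) hl2.le
  have hbm : ∀ ω, 0 < p ω →
      |(adG F c (fun _ : Fin 1 => v) i q w W X mm γ gg H z).bb ω 0| ≤ U + 1 :=
    fun ω hω => adG_bm P.grd (P.sup ω hω) 0
  obtain ⟨mu, m1, m2, m3⟩ := Hm P (Ur := Ur) (Bq := U + 2) (eV := cV K) (ψ := ψ)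
    (M := Mh F c i w H (γ i + q + X)) (by linarith) (cV_nonneg K)
    (fun q' hq' hpos => by
      have s1 := CH_le_add hq'.nonneg (Vh F c v w H Nb)
        ((adG F c (fun _ : Fin 1 => v) i q w W X mm γ gg H z).Y K)
        (fun ω => ((adG F c (fun _ : Fin 1 => v) i q w W X mm γ gg H z).T ω,
          (adG F c (fun _ : Fin 1 => v) i q w W X mm γ gg H z).g K ω))
      have s2 := CH_Y1 hq' (adG F c (fun _ : Fin 1 => v) i q w W X mm γ gg H z) K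
        (fun ω => ((adG F c (fun _ : Fin 1 => v) i q w W X mm γ gg H z).T ω,
          (adG F c (fun _ : Fin 1 => v) i q w W X mm γ gg H z).g K ω))
      have s3 := vy_h (c := c) (v := v) (i := i) (γ := γ) (gg := gg) (z := z) hq' P.deg P.DK hwW
        hW hN2 (fun ω => ((adG F c (fun _ : Fin 1 => v) i q w W X mm γ gg H z).Y K ω,
        ((adG F c (fun _ : Fin 1 => v) i q w W X mm γ gg H z).T ω,
          (adG F c (fun _ : Fin 1 => v) i q w W X mm γ gg H z).g K ω)))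
        (fun ω ν _ _ e => by
          simp only [Prod.mk.injEq] at e
          exact ⟨(Prod.ext_iff.mp e.2.1).1, e.1, e.2.2⟩)
      have s4 : ((adG F c (fun _ : Fin 1 => v) i q w W X mm γ gg H z).X : ℝ) = X := rfl
      rw [s4] at s2
      linarith)
    (by
      have s3 := vy_h (c := c) (v := v) (i := i) (γ := γ) (gg := gg) (z := z) hp P.deg P.DK hwW
        hW hN2 (fun ω => ((adG F c (fun _ : Fin 1 => v) i q w W X mm γ gg H z).Y K ω,
        (rt F W ω, (adG F c (fun _ : Fin 1 => v) i q w W X mm γ gg H z).g K ω)))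
        (fun ω ν _ _ e => by
          simp only [Prod.mk.injEq] at e
          exact ⟨e.2.1, e.1, e.2.2⟩)
      push_cast
      linarith)
    (fun ω ν hω _ hV hTT _ => by
      have := qv_h (c := c) (i := i) (γ := γ) (gg := gg) (z := z) hwW hW hN1 (hbm ω hω) hV hTT
      linarith)
    (fun j hj E hE => by
      have e1 : ∀ (a : ℕ), a ≤ X → ∀ ω, Mh F c i w H (γ i + q + X) ω / 2 ^ (X - a) =
          Mh F c i w H (γ i + q + a) ω := by
        intro a ha ω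
        unfold Mh
        obtain ⟨x, hx⟩ : ∃ x, x = ojet F (c i) 0 (H (slam F w ω) i) ω := ⟨_, rfl⟩
        rw [← hx]
        have h1 := Int.floor_div_natCast ((2 : ℝ) ^ (γ i + q + X) * x) (2 ^ (X - a))
        have e1 : (2 : ℝ) ^ (γ i + q + X) * x / ((2 ^ (X - a) : ℕ) : ℝ) =
            2 ^ (γ i + q + a) * x := by
          have e2 : (2 : ℝ) ^ (γ i + q + X) = 2 ^ (γ i + q + a) * 2 ^ (X - a) := by
            rw [← pow_add]
            congr 1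
            omega
          rw [e2]
          push_cast
          field_simp
        rw [e1] at h1
        push_cast at h1
        exact h1.symm
      have hj1 : j * ⌊κ * X⌋₊ + ⌊κ * X⌋₊ ≤ X := by
        rw [add_mul, one_mul] at hj
        exact hj
      have r1 := hrow (j * ⌊κ * X⌋₊) hj1 E hE
      have r2 : (fun ω => Mh F c i w H (γ i + q + X) ω / 2 ^ (X - (j + 1) * ⌊κ * X⌋₊)) =
          Mh F c i w H (γ i + q + (j * ⌊κ * X⌋₊ + ⌊κ * X⌋₊)) := by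
        funext ω
        rw [add_mul, one_mul]
        exact e1 _ hj1 ω
      have hE0 : 0 < law p (fun ω => ω ∈ E) True := lt_of_lt_of_le a5 hE
      have hE' : IsLaw (rs p E) :=
        ⟨cond_nonneg h0 (fun ω => ω ∈ E) True, sum_cond p (fun ω => ω ∈ E) hE0.ne'⟩
      have hqp : ∀ ω, 0 < rs p E ω → 0 < p ω := fun ω hω =>
        ((cond_pos_iff h0 (fun ω => ω ∈ E) True ω).mp hω).1
      rw [r2]
      refine le_trans (CH_mono_cond hE'.nonneg fun ω ν hω hν e => ?_) r1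
      simp only [Prod.mk.injEq] at e ⊢
      obtain ⟨e2, e3, e4, e5⟩ := e
      rw [e1 _ (by omega) ω, e1 _ (by omega) ν] at e2
      have z1 : z ω = z ν := (Prod.ext_iff.mp e5).1
      have pω : 0 < p ω := hqp ω hω
      have pν : 0 < p ν := hqp ν hν
      have t1 := P.zT ω ν pω pν z1
      have t2 : rt F W ω = rt F W ν := (Prod.ext_iff.mp e4).1
      exact ⟨e2, e3, (time_eq F hW t1 t2).1, z1⟩)
    hT hz hX hJ hψ hmm n1 (by rw [Nat.cast_one, one_mul]; exact n2)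
    (by rw [Nat.cast_one, one_mul]; exact n3)
  refine ⟨fun s => mu s 0, fun s => m1 s 0, fun s u => m2 s 0 u, le_trans ?_ m3⟩
  unfold Pb
  refine Finset.sum_le_sum fun ω _ => ?_
  by_cases h6 : (2 : ℝ) ^ (-(κ₂ * X)) < |gg ω 0 - (mu (slam F W ω) 0).eval (rt F W ω)|
  · rw [if_pos h6, if_pos ⟨0, h6⟩]
  · rw [if_neg h6]
    split_ifs
    · exact h0 ω
    · exact le_rfl

end Pool.AVG57
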